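import Mathlib

/-!
The lattice `L` of all closed subspaces of `ℓ²` is attained by the operator `0`, and every operator
`A` on a Hilbert space whose invariant subspace lattice is isomorphic to `L` is a scalar, unless `A`
has no eigenvalue and its minimal invariant subspaces are infinite dimensional (on such a subspace
`A` would be an operator without invariant subspaces).
-/

set_option autoImplicit false

noncomputable section

namespace Pool.Agent.Results.MP_b06970_an.ClosedSubspaceLattice

/-- the lattice of closed invariant subspaces of `A` -/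
abbrev Lat {H : Type} [NormedAddCommGroup H] [InnerProductSpace ℂ H] (A : H →L[ℂ] H) : Type :=
  {M : Submodule ℂ H // IsClosed (M : Set H) ∧ ∀ x ∈ M, A x ∈ M}

section core

variable {H : Type} [NormedAddCommGroup H] [InnerProductSpace ℂ H] [CompleteSpace H]
variable {K : Type} [NormedAddCommGroup K] [InnerProductSpace ℂ K] [CompleteSpace K]
variable {A : H →L[ℂ] H}

/-- the line spanned by `k` as a closed subspace -/
def line (k : K) : ClosedSubmodule ℂ K :=
  ⟨Submodule.span ℂ {k}, Submodule.closed_of_finiteDimensional _⟩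

theorem mem_line {k y : K} : y ∈ line k ↔ ∃ t : ℂ, t • k = y := by
  show y ∈ Submodule.span ℂ {k} ↔ _
  exact Submodule.mem_span_singleton

theorem self_mem_line (k : K) : k ∈ line k := mem_line.2 ⟨1, one_smul _ _⟩

theorem line_le {k : K} {N : ClosedSubmodule ℂ K} (h : k ∈ N) : line k ≤ N := by
  intro y hy
  obtain ⟨t, rfl⟩ := mem_line.1 hy
  exact N.toSubmodule.smul_mem t h

theorem line_min {k : K} {N : ClosedSubmodule ℂ K} (h : N ≤ line k) :
    (∀ y ∈ N, y = 0) ∨ N = line k := by
  by_cases hN : ∀ y ∈ N, y = 0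
  · exact Or.inl hN
  · right
    push_neg at hN
    obtain ⟨y, hy, hy0⟩ := hN
    obtain ⟨t, rfl⟩ := mem_line.1 (h hy)
    have ht : t ≠ 0 := by
      rintro rfl
      exact hy0 (zero_smul _ _)
    refine le_antisymm h (line_le ?_)
    have := N.toSubmodule.smul_mem t⁻¹ hy
    rwa [smul_smul, inv_mul_cancel₀ ht, one_smul] at this

theorem zero_of_le {N : ClosedSubmodule ℂ K} (e : Lat A ≃o ClosedSubmodule ℂ K)
    (M : Lat A) (hM : e M = N) (hN : ∀ y ∈ N, y = 0) : ∀ x ∈ M.1, x = 0 := by
  intro x hx
  have h1 : M ≤ (⟨⊥, isClosed_singleton, fun x hx => by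
      rw [Submodule.mem_bot] at hx ⊢; rw [hx, map_zero]⟩ : Lat A) := by
    rw [← e.le_iff_le, hM]
    intro y hy
    rw [hN y hy]
    exact Submodule.zero_mem _
  exact (Submodule.mem_bot ℂ).1 (h1 hx)

theorem nonzero_of {k : K} (hk : k ≠ 0) (e : Lat A ≃o ClosedSubmodule ℂ K) :
    ∃ x ∈ (e.symm (line k)).1, x ≠ 0 := by
  by_contra hcon
  push_neg at hcon
  have h1 : e.symm (line k) ≤ e.symm ⊥ := by
    intro x hx
    rw [hcon x hx]
    exact Submodule.zero_mem _
  have h2 := e.symm.le_iff_le.1 h1
  have h3 : k ∈ (⊥ : ClosedSubmodule ℂ K) := h2 (self_mem_line k)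
  exact hk (by simpa using h3)

/-- minimality of the invariant subspace of a line -/
theorem min_of (e : Lat A ≃o ClosedSubmodule ℂ K) (k : K) (N : Lat A)
    (h : N ≤ e.symm (line k)) : (∀ x ∈ N.1, x = 0) ∨ N = e.symm (line k) := by
  have h1 : e N ≤ line k := by
    have := e.le_iff_le.2 h
    rwa [e.apply_symm_apply] at this
  rcases line_min h1 with h2 | h2
  · exact Or.inl (zero_of_le e N rfl h2)
  · right
    rw [← h2, e.symm_apply_apply]

/-- the eigenspace as an element of the lattice -/
def eig (A : H →L[ℂ] H) (c : ℂ) : Lat A :=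
  ⟨LinearMap.ker (A - c • ContinuousLinearMap.id ℂ H : H →L[ℂ] H).toLinearMap,
    (A - c • ContinuousLinearMap.id ℂ H).isClosed_ker, by
      intro x hx
      have h1 : (A - c • ContinuousLinearMap.id ℂ H) x = 0 := hx
      have h2 : A x = c • x := by
        simpa [sub_eq_zero] using h1
      show (A - c • ContinuousLinearMap.id ℂ H) (A x) = 0
      rw [h2, map_smul, h1, smul_zero]⟩

theorem mem_eig {c : ℂ} {x : H} : x ∈ (eig A c).1 ↔ A x = c • x := by
  show (A - c • ContinuousLinearMap.id ℂ H) x = 0 ↔ _
  simp [sub_eq_zero]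

def infL (M N : Lat A) : Lat A :=
  ⟨M.1 ⊓ N.1, M.2.1.inter N.2.1, fun x hx => ⟨M.2.2 x hx.1, N.2.2 x hx.2⟩⟩

theorem core (e : Lat A ≃o ClosedSubmodule ℂ K) (c : ℂ) (x₀ : H) (hx₀ : x₀ ≠ 0)
    (hA : A x₀ = c • x₀) : ∀ x, A x = c • x := by
  have hspan : ∀ x ∈ Submodule.span ℂ {x₀}, A x = c • x := by
    intro x hx
    obtain ⟨t, rfl⟩ := Submodule.mem_span_singleton.1 hx
    rw [map_smul, hA, smul_comm]
  let m0 : Lat A := ⟨Submodule.span ℂ {x₀}, Submodule.closed_of_finiteDimensional _, by
    intro x hx
    rw [hspan x hx]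
    exact Submodule.smul_mem _ _ hx⟩
  have hm0 : ∀ N : Lat A, N ≤ m0 → (∀ x ∈ N.1, x = 0) ∨ N = m0 := by
    intro N hN
    by_cases h0 : ∀ x ∈ N.1, x = 0
    · exact Or.inl h0
    · right
      push_neg at h0
      obtain ⟨y, hy, hy0⟩ := h0
      obtain ⟨t, rfl⟩ := Submodule.mem_span_singleton.1 (hN hy)
      have ht : t ≠ 0 := by
        rintro rfl
        exact hy0 (zero_smul _ _)
      refine le_antisymm hN ?_
      intro x hx
      obtain ⟨s, rfl⟩ := Submodule.mem_span_singleton.1 hx
      have h1 := N.1.smul_mem (s * t⁻¹) hy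
      rwa [smul_smul, mul_assoc, inv_mul_cancel₀ ht, mul_one] at h1
  -- the line of `m0`
  obtain ⟨k0, hk0, hk0'⟩ : ∃ k0 ∈ e m0, k0 ≠ 0 := by
    by_contra hcon
    push_neg at hcon
    exact hx₀ (zero_of_le e m0 rfl hcon x₀ (Submodule.mem_span_singleton_self x₀))
  have hl0 : e.symm (line k0) = m0 := by
    have h1 : e.symm (line k0) ≤ m0 := by
      rw [← e.le_iff_le, e.apply_symm_apply]
      exact line_le hk0
    rcases hm0 _ h1 with h2 | h2
    · obtain ⟨x, hx, hx'⟩ := nonzero_of hk0' e
      exact absurd (h2 x hx) hx'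
    · exact h2
  have hem0 : e m0 = line k0 := by rw [← hl0, e.apply_symm_apply]
  have key : ∀ k : K, k ≠ 0 → e.symm (line k) ≤ eig A c := by
    intro k hk
    by_cases hkk : k ∈ line k0
    · have h1 : e.symm (line k) ≤ m0 := by
        rw [← hl0]
        exact e.symm.le_iff_le.2 (line_le hkk)
      intro x hx
      exact mem_eig.2 (hspan x (h1 hx))
    · have hkne : k0 + k ≠ 0 := by
        intro h
        apply hkk
        have : k = (-1 : ℂ) • k0 := by
          rw [neg_smul, one_smul]
          exact (neg_eq_of_add_eq_zero_right h).symm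
        exact mem_line.2 ⟨-1, this.symm⟩
      set b := e.symm (line k) with hb
      set d := e.symm (line (k0 + k)) with hd
      have hbd : ∀ x, x ∈ b.1 → x ∈ d.1 → x = 0 := by
        intro x hxb hxd
        rcases min_of e k (infL b d) (fun y hy => hy.1) with h | h
        · exact h x ⟨hxb, hxd⟩
        · exfalso
          have h1 : b ≤ d := by
            rw [hb, ← h]
            exact fun y hy => hy.2
          have h2 : line k ≤ line (k0 + k) := e.symm.le_iff_le.1 h1
          obtain ⟨t, ht⟩ := mem_line.1 (h2 (self_mem_line k))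
          have ht0 : t ≠ 0 := by
            rintro rfl
            exact hk (by rw [← ht, zero_smul])
          -- t • k0 = (1 - t) • k
          by_cases ht1 : t = 1
          · rw [ht1, one_smul] at ht
            exact hk0' (by simpa using ht)
          · apply hkk
            refine mem_line.2 ⟨(1 - t)⁻¹ * t, ?_⟩
            have h3 : t • k0 = (1 - t) • k := by
              rw [sub_smul, one_smul, eq_sub_iff_add_eq, ← smul_add]
              exact ht
            rw [← smul_smul, h3, smul_smul, inv_mul_cancel₀ (sub_ne_zero.2 (Ne.symm ht1)), one_smul]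
      have hx0d : x₀ ∉ d.1 := by
        intro hx
        have h1 : m0 ≤ d := by
          intro y hy
          obtain ⟨t, rfl⟩ := Submodule.mem_span_singleton.1 hy
          exact d.1.smul_mem t hx
        have h2 : line k0 ≤ line (k0 + k) := by
          rw [← hl0] at h1
          exact e.symm.le_iff_le.1 h1
        obtain ⟨t, ht⟩ := mem_line.1 (h2 (self_mem_line k0))
        by_cases ht0 : t = 0
        · exact hk0' (by rw [← ht, ht0, zero_smul])
        · apply hkk
          refine mem_line.2 ⟨t⁻¹ * (1 - t), ?_⟩
          have h3 : t • k = (1 - t) • k0 := by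
            rw [sub_smul, one_smul, eq_sub_iff_add_eq, add_comm, ← smul_add]
            exact ht
          rw [← smul_smul, ← h3, smul_smul, inv_mul_cancel₀ ht0, one_smul]
      -- the sum
      let S : Lat A := ⟨b.1 ⊔ Submodule.span ℂ {x₀},
        Submodule.isClosed_sup_finiteDimensional _ _ b.2.1, by
          intro x hx
          obtain ⟨y, hy, z, hz, rfl⟩ := Submodule.mem_sup.1 hx
          rw [map_add, hspan z hz]
          exact Submodule.add_mem_sup (b.2.2 y hy) (Submodule.smul_mem _ _ hz)⟩
      have hdS : d ≤ S := by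
        rw [← e.le_iff_le, hd, e.apply_symm_apply]
        apply line_le
        have h1 : k0 ∈ e S := by
          have : m0 ≤ S := fun y hy => Submodule.mem_sup_right hy
          exact (e.le_iff_le.2 this) hk0
        have h2 : k ∈ e S := by
          have : b ≤ S := fun y hy => Submodule.mem_sup_left hy
          have h3 := e.le_iff_le.2 this
          rw [hb, e.apply_symm_apply] at h3
          exact h3 (self_mem_line k)
        exact (e S).toSubmodule.add_mem h1 h2
      obtain ⟨y, hyd, hy0⟩ := nonzero_of hkne e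
      obtain ⟨m, hm, z, hz, hmz⟩ := Submodule.mem_sup.1 (hdS hyd)
      have hz' := hspan z hz
      have hw : A m - c • m = A y - c • y := by
        rw [← hmz, map_add, hz', smul_add]
        abel
      have hwb : A m - c • m ∈ b.1 := b.1.sub_mem (b.2.2 m hm) (b.1.smul_mem _ hm)
      have hwd : A m - c • m ∈ d.1 := by
        rw [hw]
        exact d.1.sub_mem (d.2.2 y hyd) (d.1.smul_mem _ hyd)
      have hmA : A m = c • m := sub_eq_zero.1 (hbd _ hwb hwd)
      have hm0' : m ≠ 0 := by
        rintro rfl
        rw [zero_add] at hmz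
        obtain ⟨t, ht⟩ := Submodule.mem_span_singleton.1 hz
        have ht0 : t ≠ 0 := by
          rintro rfl
          exact hy0 (by rw [← hmz, ← ht, zero_smul])
        apply hx0d
        have h1 : t • x₀ ∈ d.1 := by
          rw [ht, hmz]
          exact hyd
        have := d.1.smul_mem t⁻¹ h1
        rwa [smul_smul, inv_mul_cancel₀ ht0, one_smul] at this
      rcases min_of e k (infL b (eig A c)) (fun y hy => hy.1) with h | h
      · exact absurd (h m ⟨hm, mem_eig.2 hmA⟩) hm0'
      · rw [hb, ← h]
        exact fun y hy => hy.2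
  have htop : ∀ k : K, k ∈ e (eig A c) := by
    intro k
    by_cases hk : k = 0
    · rw [hk]
      exact Submodule.zero_mem _
    · have h1 := e.le_iff_le.2 (key k hk)
      rw [e.apply_symm_apply] at h1
      exact h1 (self_mem_line k)
  have hfin : (⟨⊤, isClosed_univ, fun x _ => Submodule.mem_top⟩ : Lat A) ≤ eig A c := by
    rw [← e.le_iff_le]
    intro k _
    exact htop k
  intro x
  exact mem_eig.1 (hfin (Submodule.mem_top : x ∈ (⊤ : Submodule ℂ H)))

end core

/-- The Hilbert space `ℓ²`. -/
abbrev E : Type := lp (fun _ : ℕ => ℂ) 2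

/-- `A` attains the lattice `L` of all closed subspaces of `ℓ²`: the lattice of closed invariant
subspaces of `A` is order-isomorphic to `L`. -/
def Attains {H : Type} [NormedAddCommGroup H] [InnerProductSpace ℂ H] (A : H →L[ℂ] H) : Prop :=
  Nonempty (Lat A ≃o ClosedSubmodule ℂ E)

/-- `M` is an infinite-dimensional closed invariant subspace of `A`, and the closed invariant
subspaces of `A` inside `M` are `{0}` and `M` only. -/
def IsMinimalPart {H : Type} [NormedAddCommGroup H] [InnerProductSpace ℂ H] (A : H →L[ℂ] H)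
    (M : Submodule ℂ H) : Prop :=
  IsClosed (M : Set H) ∧ (∀ x ∈ M, A x ∈ M) ∧ ¬ FiniteDimensional ℂ M ∧
    ∀ N : Submodule ℂ H, IsClosed (N : Set H) → (∀ x ∈ N, A x ∈ N) → N ≤ M → N = ⊥ ∨ N = M

/-- Let `L` be the complete lattice of all closed subspaces of `ℓ²`. It is not the two-element
lattice, it is attained by the operator `0` on `ℓ²`, and every bounded operator `A` on an
infinite-dimensional separable complex Hilbert space with `Lat A ≅ L` either is a scalar or has no
eigenvalue and has a closed invariant subspace `M` of infinite dimension inside which `{0}` and `M`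
are the only closed invariant subspaces. -/
theorem result :
    ¬ Nonempty (ClosedSubmodule ℂ E ≃o Bool) ∧ Attains (0 : E →L[ℂ] E) ∧
    ∀ (H : Type) [NormedAddCommGroup H] [InnerProductSpace ℂ H] [CompleteSpace H]
      [TopologicalSpace.SeparableSpace H], ¬ FiniteDimensional ℂ H → ∀ A : H →L[ℂ] H,
      Attains A → (∃ c : ℂ, A = c • ContinuousLinearMap.id ℂ H) ∨
      ((∀ (c : ℂ) (x : H), A x = c • x → x = 0) ∧ ∃ M, IsMinimalPart A M) := by
  refine ⟨?_, ?_, ?_⟩
  · rintro ⟨f⟩
    have hu : (lp.single 2 0 (1 : ℂ) : E) ≠ 0 := by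
      intro h
      have := congrArg (fun v : E => v 0) h
      simp at this
    have hv : (lp.single 2 1 (1 : ℂ) : E) ∉ line (lp.single 2 0 (1 : ℂ) : E) := by
      intro h
      obtain ⟨t, ht⟩ := mem_line.1 h
      have := congrArg (fun v : E => v 1) ht
      simp at this
    have hb : f (line (lp.single 2 0 (1 : ℂ) : E)) ≠ f ⊥ := by
      intro h
      have h1 := f.injective h
      have h2 := self_mem_line (lp.single 2 0 (1 : ℂ) : E)
      rw [h1] at h2
      exact hu (by simpa using h2)
    have ht : f (line (lp.single 2 0 (1 : ℂ) : E)) ≠ f ⊤ := by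
      intro h
      have h1 := f.injective h
      apply hv
      rw [h1]
      exact Submodule.mem_top
    rw [f.map_bot] at hb
    rw [f.map_top] at ht
    cases hh : f (line (lp.single 2 0 (1 : ℂ) : E))
    · exact hb hh
    · exact ht hh
  · refine ⟨?_⟩
    exact
      { toFun := fun M => ⟨M.1, M.2.1⟩
        invFun := fun N => ⟨N.toSubmodule, N.isClosed, fun x _ => by
          rw [ContinuousLinearMap.zero_apply]; exact Submodule.zero_mem _⟩
        left_inv := fun M => rfl
        right_inv := fun N => rfl
        map_rel_iff' := Iff.rfl }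
  · rintro H _ _ _ _ hH A ⟨e⟩
    by_cases hex : ∃ (c : ℂ) (x : H), A x = c • x ∧ x ≠ 0
    · left
      obtain ⟨c, x, hx, hx0⟩ := hex
      refine ⟨c, ?_⟩
      ext y
      simpa using core e c x hx0 hx y
    · right
      push_neg at hex
      refine ⟨hex, ?_⟩
      have hu : (lp.single 2 0 (1 : ℂ) : E) ≠ 0 := by
        intro h
        have := congrArg (fun v : E => v 0) h
        simp at this
      set b := e.symm (line (lp.single 2 0 (1 : ℂ) : E)) with hb
      refine ⟨b.1, b.2.1, b.2.2, ?_, ?_⟩
      · intro hfin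
        obtain ⟨x, hx, hx0⟩ := nonzero_of hu e
        haveI : Nontrivial b.1 := ⟨⟨⟨x, hx⟩, 0, fun h => hx0 (congrArg Subtype.val h)⟩⟩
        let T : Module.End ℂ b.1 := (A : H →ₗ[ℂ] H).restrict b.2.2
        obtain ⟨μ, hμ⟩ := Module.End.exists_eigenvalue T
        obtain ⟨v, hv⟩ := hμ.exists_hasEigenvector
        have h1 : T v = μ • v := hv.apply_eq_smul
        have h2 : A v.1 = μ • v.1 := congrArg Subtype.val h1
        exact hv.2 (Subtype.ext (hex μ v.1 h2))
      · intro N hN hN' hle
        rcases min_of e _ (⟨N, hN, hN'⟩ : Lat A) hle with h | h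
        · left
          rw [Submodule.eq_bot_iff]
          exact h
        · right
          exact congrArg Subtype.val h

end Pool.Agent.Results.MP_b06970_an.ClosedSubspaceLattice
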